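import Pool.Agent.Y994.KW.Stm

/-!
# Project KW: levels, strands
-/

set_option autoImplicit false

namespace Pool.Agent.Y290.KW
open Y994.KW

/-- twice the level -/
def lv (s : St) : ℤ := s.1.2 + s.2.2

/-- moving to the right -/
def rt (q t : ℤ) : St := ((q, t + 1), (q, t))

/-- moving to the left -/
def lf (q t : ℤ) : St := ((q, t), (q, t + 1))

theorem nxt_up (σ : Cfg) (q t : ℤ) :
    nxt σ (up q t) = if σ q t = false then rt (q + 1) t else lf q t := by
  have h1 : tl (up q t) = (q, t) := by simp [tl, up, rot]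
  unfold nxt
  rw [h1]
  simp [up, rot, rt, lf]

theorem nxt_dn (σ : Cfg) (q t : ℤ) :
    nxt σ (dn q t) = if σ q (t - 1) = false then lf q (t - 1) else rt (q + 1) (t - 1) := by
  have h1 : tl (dn q t) = (q, t - 1) := by
    simp [tl, dn, rot]
    ring
  unfold nxt
  rw [h1]
  simp [dn, rot, rt, lf]
  rfl

theorem nxt_rt (σ : Cfg) (q t : ℤ) :
    nxt σ (rt q t) = if σ q t = true then dn q t else up q (t + 1) := by
  have h1 : tl (rt q t) = (q, t) := by simp [tl, rt, rot]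
  unfold nxt
  rw [h1]
  simp [up, dn, rot, rt]

theorem nxt_lf (σ : Cfg) (q t : ℤ) :
    nxt σ (lf q t) = if σ (q - 1) t = true then up (q - 1) (t + 1) else dn (q - 1) t := by
  have h1 : tl (lf q t) = (q - 1, t) := by
    simp [tl, lf, rot]
    ring
  unfold nxt
  rw [h1]
  simp [up, dn, rot, lf]
  rfl

theorem lv_up (q t : ℤ) : lv (up q t) = 2 * t := by simp [lv, up]; ring

theorem lv_dn (q t : ℤ) : lv (dn q t) = 2 * t := by simp [lv, dn]; ring

theorem lv_rt (q t : ℤ) : lv (rt q t) = 2 * t + 1 := by simp [lv, rt]; ring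

theorem lv_lf (q t : ℤ) : lv (lf q t) = 2 * t + 1 := by simp [lv, lf]; ring

theorem rev_up (q t : ℤ) : rev (up q t) = dn q t := rfl

theorem rev_dn (q t : ℤ) : rev (dn q t) = up q t := rfl

theorem rev_rt (q t : ℤ) : rev (rt q t) = lf q t := rfl

theorem rev_lf (q t : ℤ) : rev (lf q t) = rt q t := rfl

theorem rev_rev (s : St) : rev (rev s) = s := rfl

theorem lv_rev (s : St) : lv (rev s) = lv s := by simp [lv, rev]; ring

theorem lv_sh (z : ℤ) (s : St) : lv (sh z s) = lv s := by simp [lv, sh]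

theorem sh_up (z q t : ℤ) : sh z (up q t) = up (q + z) t := by
  simp [sh, up]; ring

theorem sh_dn (z q t : ℤ) : sh z (dn q t) = dn (q + z) t := by
  simp [sh, dn]; ring

theorem sh_rt (z q t : ℤ) : sh z (rt q t) = rt (q + z) t := by
  simp [sh, rt]

theorem sh_lf (z q t : ℤ) : sh z (lf q t) = lf (q + z) t := by
  simp [sh, lf]

/-- the four kinds of states -/
inductive Kd : St → Prop
  | up (q t : ℤ) : Kd (Y994.KW.up q t)
  | dn (q t : ℤ) : Kd (Y994.KW.dn q t)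
  | rt (q t : ℤ) : Kd (Pool.Agent.Y290.KW.rt q t)
  | lf (q t : ℤ) : Kd (Pool.Agent.Y290.KW.lf q t)

theorem kd_of_ok {s : St} (h : Ok s) : Kd s := by
  obtain ⟨q, t, h | h | h | h⟩ := h
  · rw [h]; exact Kd.up q t
  · rw [h]; exact Kd.dn q t
  · rw [h]; exact Kd.lf q t
  · rw [h]; exact Kd.rt q t

theorem ok_of_kd {s : St} (h : Kd s) : Ok s := by
  cases h with
  | up q t => exact ⟨q, t, Or.inl rfl⟩
  | dn q t => exact ⟨q, t, Or.inr (Or.inl rfl)⟩
  | rt q t => exact ⟨q, t, Or.inr (Or.inr (Or.inr rfl))⟩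
  | lf q t => exact ⟨q, t, Or.inr (Or.inr (Or.inl rfl))⟩

theorem kd_nxt (σ : Cfg) {s : St} (h : Kd s) : Kd (nxt σ s) := by
  cases h with
  | up q t => rw [nxt_up]; split_ifs; exacts [Kd.rt _ _, Kd.lf _ _]
  | dn q t => rw [nxt_dn]; split_ifs; exacts [Kd.lf _ _, Kd.rt _ _]
  | rt q t => rw [nxt_rt]; split_ifs; exacts [Kd.dn _ _, Kd.up _ _]
  | lf q t => rw [nxt_lf]; split_ifs; exacts [Kd.up _ _, Kd.dn _ _]

theorem kd_rev {s : St} (h : Kd s) : Kd (rev s) := by
  cases h with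
  | up q t => exact Kd.dn q t
  | dn q t => exact Kd.up q t
  | rt q t => exact Kd.lf q t
  | lf q t => exact Kd.rt q t

/-- the step backwards -/
theorem nxt_rev (σ : Cfg) {s : St} (h : Kd s) : nxt σ (rev (nxt σ s)) = rev s := by
  cases h with
  | up q t =>
    rw [nxt_up]
    split_ifs with h1
    · rw [rev_rt, nxt_lf, add_sub_cancel_right, h1]; simp [rev_up]
    · rw [rev_lf, nxt_rt]; simp only [Bool.not_eq_false] at h1; rw [h1]; simp [rev_up]
  | dn q t =>
    rw [nxt_dn]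
    split_ifs with h1
    · rw [rev_lf, nxt_rt, h1]; simp [rev_dn]
    · rw [rev_rt, nxt_lf, add_sub_cancel_right]; simp only [Bool.not_eq_false] at h1; rw [h1]
      simp [rev_dn]
  | rt q t =>
    rw [nxt_rt]
    split_ifs with h1
    · rw [rev_dn, nxt_up, h1]; simp [rev_rt]
    · rw [rev_up, nxt_dn, add_sub_cancel_right]; simp only [Bool.not_eq_true] at h1; rw [h1]
      simp [rev_rt]
  | lf q t =>
    rw [nxt_lf]
    split_ifs with h1
    · rw [rev_up, nxt_dn, add_sub_cancel_right, h1]; simp [rev_lf]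
    · rw [rev_dn, nxt_up]; simp only [Bool.not_eq_true] at h1; rw [h1]; simp [rev_lf]

theorem per_z {n : ℕ} {σ : Cfg} (h : Per n σ) (z : ℤ) (q t : ℤ) :
    σ (q + (2 * n + 1) * z) t = σ q t := by
  induction z with
  | zero => simp
  | succ k ih =>
    rw [← ih, ← h (q + (2 * n + 1) * k) t]
    congr 1; ring
  | pred k ih =>
    rw [← ih, ← h (q + (2 * n + 1) * (-k - 1)) t]
    congr 1; ring

theorem nxt_sh {n : ℕ} {σ : Cfg} (hp : Per n σ) (z : ℤ) {s : St} (h : Kd s) :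
    nxt σ (sh ((2 * n + 1) * z) s) = sh ((2 * n + 1) * z) (nxt σ s) := by
  cases h with
  | up q t =>
    rw [sh_up, nxt_up, nxt_up, per_z hp]
    split_ifs
    · rw [sh_rt]; congr 1; ring
    · rw [sh_lf]
  | dn q t =>
    rw [sh_dn, nxt_dn, nxt_dn, per_z hp]
    split_ifs
    · rw [sh_lf]
    · rw [sh_rt]; congr 1; ring
  | rt q t =>
    rw [sh_rt, nxt_rt, nxt_rt, per_z hp]
    split_ifs
    · rw [sh_dn]
    · rw [sh_up]
  | lf q t =>
    rw [sh_lf, nxt_lf, nxt_lf]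
    have e : q + (2 * (n : ℤ) + 1) * z - 1 = (q - 1) + (2 * n + 1) * z := by ring
    rw [e, per_z hp]
    split_ifs
    · rw [sh_up]
    · rw [sh_dn]

theorem kd_it (σ : Cfg) {s : St} (h : Kd s) (i : ℕ) : Kd ((nxt σ)^[i] s) := by
  induction i with
  | zero => exact h
  | succ k ih => rw [Function.iterate_succ_apply']; exact kd_nxt σ ih

theorem it_sh {n : ℕ} {σ : Cfg} (hp : Per n σ) (z : ℤ) {s : St} (h : Kd s) (i : ℕ) :
    (nxt σ)^[i] (sh ((2 * n + 1) * z) s) = sh ((2 * n + 1) * z) ((nxt σ)^[i] s) := by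
  induction i with
  | zero => rfl
  | succ k ih =>
    rw [Function.iterate_succ_apply', Function.iterate_succ_apply', ih,
      nxt_sh hp z (kd_it σ h k)]

/-! ## levels -/

theorem lv_nxt (σ : Cfg) {s : St} (h : Kd s) :
    lv (nxt σ s) = lv s + 1 ∨ lv (nxt σ s) = lv s - 1 := by
  cases h with
  | up q t => rw [nxt_up]; split_ifs <;> left <;> simp only [lv_up, lv_rt, lv_lf]
  | dn q t => rw [nxt_dn]; split_ifs <;> simp only [lv_dn, lv_rt, lv_lf] <;> omega
  | rt q t => rw [nxt_rt]; split_ifs <;> simp only [lv_up, lv_dn, lv_rt] <;> omega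
  | lf q t => rw [nxt_lf]; split_ifs <;> simp only [lv_up, lv_dn, lv_lf] <;> omega

/-- a state on the level `t` which moves up -/
theorem is_up (σ : Cfg) {s : St} (h : Kd s) {t : ℤ} (h1 : lv s = 2 * t)
    (h2 : 2 * t < lv (nxt σ s)) : ∃ q, s = up q t := by
  cases h with
  | up q t' => rw [lv_up] at h1; exact ⟨q, by rw [show t' = t by omega]⟩
  | dn q t' =>
    rw [lv_dn] at h1
    rw [nxt_dn] at h2
    exfalso
    split_ifs at h2 <;> simp only [lv_rt, lv_lf] at h2 <;> omega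
  | rt q t' => rw [lv_rt] at h1; omega
  | lf q t' => rw [lv_lf] at h1; omega

/-- a state on the level `t` which moves down -/
theorem is_dn (σ : Cfg) {s : St} (h : Kd s) {t : ℤ} (h1 : lv s = 2 * t)
    (h2 : lv (nxt σ s) < 2 * t) : ∃ q, s = dn q t := by
  cases h with
  | up q t' =>
    rw [lv_up] at h1
    rw [nxt_up] at h2
    exfalso
    split_ifs at h2 <;> simp only [lv_rt, lv_lf] at h2 <;> omega
  | dn q t' => rw [lv_dn] at h1; exact ⟨q, by rw [show t' = t by omega]⟩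
  | rt q t' => rw [lv_rt] at h1; omega
  | lf q t' => rw [lv_lf] at h1; omega

/-- arriving from below -/
theorem arr_up (σ : Cfg) {s : St} (h : Kd s) {t : ℤ} (h1 : lv (nxt σ s) = 2 * t)
    (h2 : lv s < 2 * t) : ∃ q, nxt σ s = up q t := by
  cases h with
  | up q t' =>
    rw [nxt_up] at h1
    split_ifs at h1 <;> simp only [lv_rt, lv_lf] at h1 <;> omega
  | dn q t' =>
    rw [nxt_dn] at h1
    split_ifs at h1 <;> simp only [lv_rt, lv_lf] at h1 <;> omega
  | rt q t' =>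
    rw [lv_rt] at h2
    rw [nxt_rt] at h1 ⊢
    split_ifs at h1 ⊢ with h3
    · rw [lv_dn] at h1; omega
    · rw [lv_up] at h1; exact ⟨q, by rw [show t' + 1 = t by omega]⟩
  | lf q t' =>
    rw [lv_lf] at h2
    rw [nxt_lf] at h1 ⊢
    split_ifs at h1 ⊢ with h3
    · rw [lv_up] at h1; exact ⟨q - 1, by rw [show t' + 1 = t by omega]⟩
    · rw [lv_dn] at h1; omega

/-- arriving from above -/
theorem arr_dn (σ : Cfg) {s : St} (h : Kd s) {t : ℤ} (h1 : lv (nxt σ s) = 2 * t)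
    (h2 : 2 * t < lv s) : ∃ q, nxt σ s = dn q t := by
  cases h with
  | up q t' =>
    rw [nxt_up] at h1
    split_ifs at h1 <;> simp only [lv_rt, lv_lf] at h1 <;> omega
  | dn q t' =>
    rw [nxt_dn] at h1
    split_ifs at h1 <;> simp only [lv_rt, lv_lf] at h1 <;> omega
  | rt q t' =>
    rw [lv_rt] at h2
    rw [nxt_rt] at h1 ⊢
    split_ifs at h1 ⊢ with h3
    · rw [lv_dn] at h1; exact ⟨q, by rw [show t' = t by omega]⟩
    · rw [lv_up] at h1; omega
  | lf q t' =>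
    rw [lv_lf] at h2
    rw [nxt_lf] at h1 ⊢
    split_ifs at h1 ⊢ with h3
    · rw [lv_up] at h1; omega
    · rw [lv_dn] at h1; exact ⟨q - 1, by rw [show t' = t by omega]⟩

theorem lv_even {s : St} (h : Kd s) {t : ℤ} (h1 : lv s = 2 * t) :
    ∃ q, s = up q t ∨ s = dn q t := by
  cases h with
  | up q t' => rw [lv_up] at h1; exact ⟨q, Or.inl (by rw [show t' = t by omega])⟩
  | dn q t' => rw [lv_dn] at h1; exact ⟨q, Or.inr (by rw [show t' = t by omega])⟩
  | rt q t' => rw [lv_rt] at h1; omega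
  | lf q t' => rw [lv_lf] at h1; omega

/-! ## the walker on the cylinder -/

theorem wk_dn (n : ℕ) (a : ℤ) (σ : Cfg) (q : ℤ) : ∃ q', wk n a σ (dn q a) = up q' a := by
  unfold wk
  rw [if_pos (by simp [dn])]
  split_ifs
  · refine ⟨q + 1, ?_⟩
    simp [dn, up]; ring
  · refine ⟨q - 1, ?_⟩
    simp [dn, up]; ring

theorem wk_nxt (n : ℕ) (a : ℤ) (σ : Cfg) {s : St} (h : ∀ q, s ≠ dn q a) :
    wk n a σ s = nxt σ s := by
  unfold wk
  rw [if_neg]
  rintro ⟨h1, h2, h3⟩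
  apply h s.2.1
  obtain ⟨⟨x1, y1⟩, ⟨x2, y2⟩⟩ := s
  simp only at h1 h2 h3
  simp [dn, h1, h2, h3]

theorem wk_up (n : ℕ) (a : ℤ) (σ : Cfg) (q t : ℤ) : wk n a σ (up q t) = nxt σ (up q t) := by
  apply wk_nxt
  intro q' h
  simp only [up, dn, Prod.mk.injEq] at h
  omega

theorem kd_wk (n : ℕ) (a : ℤ) (σ : Cfg) {s : St} (h : Kd s) : Kd (wk n a σ s) := by
  by_cases h1 : ∃ q, s = dn q a
  · obtain ⟨q, rfl⟩ := h1
    obtain ⟨q', h2⟩ := wk_dn n a σ q
    rw [h2]
    exact Kd.up _ _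
  · push Not at h1
    rw [wk_nxt n a σ h1]
    exact kd_nxt σ h

/-- above the level `a` the walker moves in the usual way -/
theorem wk_hi (n : ℕ) (a : ℤ) (σ : Cfg) {s : St} (h1 : 2 * a < lv s) :
    wk n a σ s = nxt σ s := by
  apply wk_nxt
  intro q hq
  rw [hq, lv_dn] at h1
  omega

/-- a step up -/
theorem wk_inc (n : ℕ) (a : ℤ) (σ : Cfg) {s : St} (h1 : lv s < lv (wk n a σ s)) :
    wk n a σ s = nxt σ s := by
  apply wk_nxt
  intro q hq
  obtain ⟨q', h2⟩ := wk_dn n a σ q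
  rw [hq, h2, lv_up, lv_dn] at h1
  omega

/-- a step down -/
theorem wk_dec (n : ℕ) (a : ℤ) (σ : Cfg) {s : St} (h1 : lv (wk n a σ s) < lv s) :
    wk n a σ s = nxt σ s := by
  apply wk_nxt
  intro q hq
  obtain ⟨q', h2⟩ := wk_dn n a σ q
  rw [hq, h2, lv_up, lv_dn] at h1
  omega

theorem lv_wk (n : ℕ) (a : ℤ) (σ : Cfg) {s : St} (h : Kd s) :
    lv (wk n a σ s) ≤ lv s + 1 ∧ lv s - 1 ≤ lv (wk n a σ s) := by
  by_cases h1 : ∃ q, s = dn q a
  · obtain ⟨q, rfl⟩ := h1
    obtain ⟨q', h2⟩ := wk_dn n a σ q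
    rw [h2, lv_up, lv_dn]
    omega
  · push Not at h1
    rw [wk_nxt n a σ h1]
    rcases lv_nxt σ h with h3 | h3 <;> omega

theorem orb_zero (n : ℕ) (a : ℤ) (σ : Cfg) : orb n a σ 0 = up (2 * n) a := rfl

theorem orb_succ (n : ℕ) (a : ℤ) (σ : Cfg) (i : ℕ) :
    orb n a σ (i + 1) = wk n a σ (orb n a σ i) := by
  unfold orb
  rw [Function.iterate_succ_apply']

theorem kd_orb (n : ℕ) (a : ℤ) (σ : Cfg) (i : ℕ) : Kd (orb n a σ i) := by
  induction i with
  | zero => exact Kd.up _ _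
  | succ k ih => rw [orb_succ]; exact kd_wk n a σ ih

theorem lv_orb_succ (n : ℕ) (a : ℤ) (σ : Cfg) (i : ℕ) :
    lv (orb n a σ (i + 1)) ≤ lv (orb n a σ i) + 1 ∧
      lv (orb n a σ i) - 1 ≤ lv (orb n a σ (i + 1)) := by
  rw [orb_succ]
  exact lv_wk n a σ (kd_orb n a σ i)

end Pool.Agent.Y290.KW
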