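import Pool.Agent.Y290.KW.A

/-!
# Project KW: the strands of the interface which cross a slab
-/

set_option autoImplicit false

namespace Pool.Agent.Y290.KW
open Y994.KW

/-- last index -/
theorem last_idx {P : ℕ → Prop} {m : ℕ} (h0 : ∃ j ≤ m, P j) :
    ∃ j ≤ m, P j ∧ ∀ k, j < k → k ≤ m → ¬ P k := by
  classical
  obtain ⟨j0, hj0, hP⟩ := h0
  refine ⟨Nat.findGreatest P m, Nat.findGreatest_le m, Nat.findGreatest_spec hj0 hP, ?_⟩
  intro k h1 h2
  exact Nat.findGreatest_is_greatest h1 h2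

/-- first index -/
theorem first_idx {P : ℕ → Prop} {j : ℕ} (h0 : ∃ k, j ≤ k ∧ P k) :
    ∃ k, j ≤ k ∧ P k ∧ ∀ i, j ≤ i → i < k → ¬ P i := by
  classical
  refine ⟨Nat.find h0, (Nat.find_spec h0).1, (Nat.find_spec h0).2, ?_⟩
  intro i h1 h2 h3
  exact Nat.find_min h0 h2 ⟨h1, h3⟩

/-- before the first hit of `b` the interface is below the level `b` -/
theorem lt_hit {n : ℕ} {a b : ℤ} {σ : Cfg} {i : ℕ} {X : ℤ} (hab : a ≤ b) (h : Hit n a b σ i X) :
    ∀ k < i, lv (orb n a σ k) < 2 * b := by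
  intro k
  induction k with
  | zero =>
    intro hk
    rw [orb_zero, lv_up]
    by_contra hc
    have h1 : a = b := by omega
    subst h1
    exact h.2 0 hk (2 * n) rfl
  | succ k ih =>
    intro hk
    have h1 := ih (by omega)
    by_contra hc
    have h2 := lv_orb_succ n a σ k
    have h3 : lv (orb n a σ (k + 1)) = 2 * b := by omega
    have h4 : wk n a σ (orb n a σ k) = nxt σ (orb n a σ k) :=
      wk_inc n a σ (by rw [← orb_succ]; omega)
    rw [orb_succ, h4] at h3
    obtain ⟨q, hq⟩ := arr_up σ (kd_orb n a σ k) h3 h1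
    exact h.2 (k + 1) hk q (by rw [orb_succ, h4, hq])

theorem it_orb {n : ℕ} {a : ℤ} {σ : Cfg} {j m : ℕ}
    (h : ∀ i < m, wk n a σ (orb n a σ (j + i)) = nxt σ (orb n a σ (j + i))) :
    ∀ i ≤ m, (nxt σ)^[i] (orb n a σ j) = orb n a σ (j + i) := by
  intro i
  induction i with
  | zero => intro _; rfl
  | succ i ih =>
    intro hi
    rw [Function.iterate_succ_apply', ih (by omega), ← h i (by omega), ← orb_succ]
    rfl

/-- the ascending strand before the first hit of the level `v` -/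
theorem asc {n : ℕ} {a u v : ℤ} {σ : Cfg} {τ : ℕ} {X : ℤ} (hau : a ≤ u) (huv : u < v)
    (h : Hit n a v σ τ X) : ∃ (j : ℕ) (p : ℤ), j < τ ∧
      (∀ i ≤ τ - j, (nxt σ)^[i] (up p u) = orb n a σ (j + i)) ∧
      (∀ i, 0 < i → i < τ - j → Inn u v ((nxt σ)^[i] (up p u))) := by
  obtain ⟨j, h1, h2, h3⟩ := last_idx (P := fun k => lv (orb n a σ k) ≤ 2 * u) (m := τ)
    ⟨0, Nat.zero_le _, by rw [orb_zero, lv_up]; omega⟩
  simp only [not_le] at h2 h3
  have h4 : lv (orb n a σ τ) = 2 * v := by rw [h.1, lv_up]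
  have h5 : j < τ := by
    rcases Nat.lt_or_ge j τ with h | h
    · exact h
    · have h6 : j = τ := by omega
      subst h6
      omega
  have h6 := h3 (j + 1) (by omega) (by omega)
  have h7 := lv_orb_succ n a σ j
  have h8 : lv (orb n a σ j) = 2 * u := by omega
  have h9 : wk n a σ (orb n a σ j) = nxt σ (orb n a σ j) :=
    wk_inc n a σ (by rw [← orb_succ]; omega)
  obtain ⟨p, hp⟩ := is_up σ (kd_orb n a σ j) h8 (by rw [← h9, ← orb_succ]; exact h6)
  have h10 : ∀ i ≤ τ - j, (nxt σ)^[i] (up p u) = orb n a σ (j + i) := by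
    rw [← hp]
    apply it_orb
    intro i hi
    rcases Nat.eq_zero_or_pos i with h11 | h11
    · subst h11; exact h9
    · apply wk_hi
      have := h3 (j + i) (by omega) (by omega)
      omega
  refine ⟨j, p, h5, h10, ?_⟩
  intro i hi1 hi2
  rw [h10 i (by omega)]
  have h11 := h3 (j + i) (by omega) (by omega)
  have h12 := lt_hit (by omega) h (j + i) (by omega)
  exact ⟨h11, h12⟩

/-- a descending strand -/
theorem desc {n : ℕ} {a u v : ℤ} {σ : Cfg} {j k : ℕ} (hau : a ≤ u) (huv : u < v) (hjk : j ≤ k)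
    (h1 : 2 * v ≤ lv (orb n a σ j)) (h2 : lv (orb n a σ k) ≤ 2 * u) :
    ∃ (k' : ℕ) (p q : ℤ), orb n a σ k' = dn p u ∧ Thr σ u v p q := by
  obtain ⟨k1, h3, h4, h5⟩ := first_idx (P := fun k => lv (orb n a σ k) ≤ 2 * u) (j := j)
    ⟨k, hjk, h2⟩
  simp only [not_le] at h4 h5
  have h6 : j < k1 := by
    rcases Nat.lt_or_ge j k1 with h | h
    · exact h
    · have h6 : j = k1 := by omega
      subst h6
      omega
  obtain ⟨j1, h7, h8, h9⟩ := last_idx (P := fun k => 2 * v ≤ lv (orb n a σ k)) (m := k1)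
    ⟨j, h3, h1⟩
  simp only [not_le] at h9
  have h10 : j1 < k1 := by
    rcases Nat.lt_or_ge j1 k1 with h | h
    · exact h
    · have h6 : j1 = k1 := by omega
      subst h6
      omega
  have h11 : j ≤ j1 := by
    by_contra hc
    exact absurd (h9 j (by omega) h3) (by omega)
  -- the strand
  have hw : ∀ i, j1 ≤ i → i < k1 → wk n a σ (orb n a σ i) = nxt σ (orb n a σ i) := by
    intro i hi1 hi2
    apply wk_hi
    have := h5 i (by omega) hi2
    omega
  -- the bottom end
  obtain ⟨c, hc⟩ : ∃ c, k1 = c + 1 := ⟨k1 - 1, by omega⟩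
  have hcl := h5 c (by omega) (by omega)
  have hc1 := lv_orb_succ n a σ c
  rw [← hc] at hc1
  have hk : lv (orb n a σ k1) = 2 * u := by omega
  have hk2 : orb n a σ k1 = nxt σ (orb n a σ c) := by
    rw [hc, orb_succ, hw c (by omega) (by omega)]
  obtain ⟨p, hp⟩ := arr_dn σ (kd_orb n a σ c) (t := u) (by rw [← hk2]; exact hk) (by omega)
  rw [← hk2] at hp
  -- the top end
  have ht1 := lv_orb_succ n a σ j1
  have ht2 := h9 (j1 + 1) (by omega) (by omega)
  have ht : lv (orb n a σ j1) = 2 * v := by omega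
  obtain ⟨q, hq⟩ := is_dn σ (kd_orb n a σ j1) ht (by
    rw [← hw j1 le_rfl h10, ← orb_succ]; exact ht2)
  -- backwards
  have hb : ∀ i ≤ k1 - j1, (nxt σ)^[i] (up p u) = rev (orb n a σ (k1 - i)) := by
    intro i
    induction i with
    | zero => intro _; rw [Nat.sub_zero, hp]; rfl
    | succ i ih =>
      intro hi
      rw [Function.iterate_succ_apply', ih (by omega)]
      have h12 : k1 - i = (k1 - (i + 1)) + 1 := by omega
      rw [h12, orb_succ, hw (k1 - (i + 1)) (by omega) (by omega)]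
      exact nxt_rev σ (kd_orb n a σ _)
  refine ⟨k1, p, q, hp, k1 - j1, by omega, ?_, ?_⟩
  · rw [hb _ le_rfl, show k1 - (k1 - j1) = j1 by omega, hq]
    rfl
  · intro i hi1 hi2
    rw [hb i (by omega)]
    have h12 := h5 (k1 - i) (by omega) (by omega)
    have h13 := h9 (k1 - i) (by omega) (by omega)
    have h14 := lv_rev (orb n a σ (k1 - i))
    constructor
    · change 2 * u < lv (rev (orb n a σ (k1 - i)))
      omega
    · change lv (rev (orb n a σ (k1 - i))) < 2 * v
      omega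

/-- after the first hit of `v` the interface stays above `u` -/
theorem stay (hI : S_INJ) {n : ℕ} {a u v : ℤ} {σ : Cfg} {τ : ℕ} {X : ℤ} (hn : 1 ≤ n)
    (hp : Per n σ) (hau : a ≤ u) (huv : u < v) (hT : T1 n σ u v) (h : Hit n a v σ τ X) :
    ∀ k, τ ≤ k → 2 * u < lv (orb n a σ k) := by
  intro k hk
  by_contra hc
  obtain ⟨j, p, h1, h2, h3⟩ := asc hau huv h
  obtain ⟨k', p', q', h4, h5⟩ := desc (j := τ) (k := k) hau huv hk (by rw [h.1, lv_up])
    (by omega)
  obtain ⟨p0, _, h6⟩ := hT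
  have h7 : Thr σ u v p (2 * n + X) := by
    refine ⟨τ - j, by omega, ?_, h3⟩
    rw [h2 _ le_rfl, show j + (τ - j) = τ by omega, h.1]
  have h8 := h6 _ _ h7
  have h9 := h6 _ _ h5
  obtain ⟨z, hz⟩ : (2 * n + 1 : ℤ) ∣ p' - p := by
    have := dvd_sub h9 h8
    rwa [sub_sub_sub_cancel_right] at this
  apply (hI n a σ hn hp j k' z).2
  have h10 := h2 0 (Nat.zero_le _)
  rw [h4, show j = j + 0 from rfl, ← h10]
  change dn p' u = sh ((2 * n + 1) * z) (rev (up p u))
  rw [rev_up, sh_dn, ← hz]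
  congr 1
  ring

theorem T1_lt {n : ℕ} {σ : Cfg} {u v : ℤ} (h : u ≤ v) (hT : T1 n σ u v) : u < v := by
  rcases h.lt_or_eq with h1 | h1
  · exact h1
  · exfalso
    subst h1
    obtain ⟨p, ⟨q, m, h2, h3, h4⟩, _⟩ := hT
    rcases Nat.lt_or_ge 1 m with h5 | h5
    · have h6 := h4 1 one_pos h5
      unfold Inn at h6
      omega
    · have h6 : m = 1 := by omega
      subst h6
      have h7 := lv_nxt σ (Kd.up p u)
      simp only [Function.iterate_one] at h3
      rw [h3, lv_up, lv_up] at h7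
      omega

end Pool.Agent.Y290.KW
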