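import Pool.Agent.Y290.KW.B

/-!
# Project KW: the composition formula
-/

set_option autoImplicit false

namespace Pool.Agent.Y290.KW
open Y994.KW

theorem hit_unique {n : ℕ} {a b : ℤ} {σ : Cfg} {i i' : ℕ} {X X' : ℤ} (h : Hit n a b σ i X)
    (h' : Hit n a b σ i' X') : X = X' := by
  have h2 : i = i' := by
    rcases lt_trichotomy i i' with h1 | h1 | h1
    · exact absurd h.1 (h'.2 i h1 _)
    · exact h1
    · exact absurd h'.1 (h.2 i' h1 _)
  subst h2
  have h3 := h.1.symm.trans h'.1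
  simp only [up, Prod.mk.injEq] at h3
  omega

theorem hit_le {n : ℕ} {a s v : ℤ} {σ : Cfg} {τ τ' : ℕ} {X X' : ℤ} (has : a ≤ s) (hsv : s ≤ v)
    (h : Hit n a s σ τ X) (h' : Hit n a v σ τ' X') : τ ≤ τ' := by
  by_contra hc
  have h1 := lt_hit has h τ' (by omega)
  rw [h'.1, lv_up] at h1
  omega

theorem ok_bd {s : St} (h : Kd s) {u v : ℤ} (h1 : 2 * u ≤ lv s) (h2 : lv s ≤ 2 * v) :
    u ≤ s.1.2 ∧ s.1.2 ≤ v ∧ u ≤ s.2.2 ∧ s.2.2 ≤ v := by
  unfold lv at h1 h2
  cases h with
  | up q t => simp only [up] at h1 h2 ⊢; omega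
  | dn q t => simp only [dn] at h1 h2 ⊢; omega
  | rt q t => simp only [rt] at h1 h2 ⊢; omega
  | lf q t => simp only [lf] at h1 h2 ⊢; omega

/-- a long displacement between two levels -/
theorem brk (hV : S_VAL) (hI : S_INJ) (hG : S_TRAVG) {n : ℕ} {a lo s hi : ℤ} {σ : Cfg}
    {τ τ' : ℕ} {X X' : ℤ} {r : ℕ} (hn : 1 ≤ n) (hp : Per n σ) (h1 : a ≤ lo) (h2 : lo ≤ s)
    (h3 : s ≤ hi) (hT : lo = a ∨ T1 n σ lo s) (hs : Hit n a s σ τ X) (hh : Hit n a hi σ τ' X')
    (hr : 2 * (2 * n + 1) * (r + 2) ≤ |X' - X|) : DC (2 * n + 1) lo hi (a + 1) r σ := by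
  have h4 : τ ≤ τ' := hit_le (by omega) h3 hs hh
  have hst : lo = a ∨ ∀ k, τ ≤ k → 2 * lo < lv (orb n a σ k) :=
    hT.imp_right (fun h => stay hI hn hp h1 (T1_lt h2 h) h hs)
  apply hG n σ lo hi (a + 1) (fun i => orb n a σ (τ + i)) (τ' - τ) r hn hp
  · intro i hi'
    obtain ⟨v1, v2, v3, v4, v5⟩ := hV n a σ (τ + i) hn hp
    have hup : lv (orb n a σ (τ + i)) ≤ 2 * hi := by
      rcases (show τ + i ≤ τ' by omega).lt_or_eq with h | h
      · exact (lt_hit (by omega) hh _ h).le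
      · rw [h, hh.1, lv_up]
    have hlo : 2 * lo ≤ lv (orb n a σ (τ + i)) := by
      rcases hst with h | h
      · rw [h]; unfold lv; omega
      · exact (h _ (by omega)).le
    obtain ⟨c1, c2, c3, c4⟩ := ok_bd (kd_orb n a σ (τ + i)) hlo hup
    exact ⟨v1, c1, c2, c3, c4, v5⟩
  · intro i hi'
    change orb n a σ (τ + i + 1) = wk n lo σ (orb n a σ (τ + i))
    rw [orb_succ]
    rcases hst with h | h
    · rw [h]
    · have h5 := h (τ + i) (by omega)
      rw [wk_hi _ _ _ h5, wk_hi n a σ (by omega)]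
  · rcases hst with h | h
    · right
      subst h
      refine ⟨by omega, ?_⟩
      rintro i hi' q hq ⟨z, hz⟩
      apply (hI n lo σ hn hp 0 (τ + i) z).2
      rw [orb_zero, rev_up, sh_dn]
      change orb n lo σ (τ + i) = dn q lo at hq
      rw [hq, ← hz]
      congr 1
      ring
    · left
      intro i hi' q hq
      have h5 := h (τ + i) (by omega)
      change orb n a σ (τ + i) = dn q lo at hq
      rw [hq, lv_dn] at h5
      omega
  · intro i hi' l hl z
    exact ⟨fun h => (hI n a σ hn hp (τ + i) (τ + l) z).1 (by omega),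
      (hI n a σ hn hp (τ + i) (τ + l) z).2⟩
  · show _ ≤ |(orb n a σ (τ + (τ' - τ))).1.1 - (orb n a σ (τ + 0)).1.1|
    rw [show τ + (τ' - τ) = τ' by omega, hh.1, add_zero, hs.1]
    simp only [up]
    rw [show (2 * (n : ℤ) + X' - (2 * n + X)) = X' - X by ring]
    exact hr

/-- the displacements above a slab which is crossed by one strand -/
theorem tail (hI : S_INJ) {n : ℕ} {a s hi b : ℤ} {σ : Cfg} {τh τb ηh ηb : ℕ} {Xh Xb Yh Yb : ℤ}
    (hn : 1 ≤ n) (hp : Per n σ) (h1 : a ≤ s) (h2 : s < hi) (h3 : hi ≤ b) (hT : T1 n σ s hi)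
    (ha : Hit n a hi σ τh Xh) (hb : Hit n a b σ τb Xb)
    (ha' : Hit n s hi σ ηh Yh) (hb' : Hit n s b σ ηb Yb) : Xb - Yb = Xh - Yh := by
  obtain ⟨j, p, a1, a2, a3⟩ := asc h1 h2 ha
  obtain ⟨j', p', b1, b2, b3⟩ := asc le_rfl h2 ha'
  have hthr : Thr σ s hi p (2 * n + Xh) := by
    refine ⟨τh - j, by omega, ?_, a3⟩
    rw [a2 _ le_rfl, show j + (τh - j) = τh by omega, ha.1]
  have hthr' : Thr σ s hi p' (2 * n + Yh) := by
    refine ⟨ηh - j', by omega, ?_, b3⟩
    rw [b2 _ le_rfl, show j' + (ηh - j') = ηh by omega, ha'.1]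
  obtain ⟨p0, _, h6⟩ := id hT
  obtain ⟨z, hz⟩ : (2 * n + 1 : ℤ) ∣ p' - p := by
    have := dvd_sub (h6 _ _ hthr') (h6 _ _ hthr)
    rwa [sub_sub_sub_cancel_right] at this
  have hpp : up p' s = sh ((2 * n + 1) * z) (up p s) := by
    rw [sh_up, ← hz]; congr 1; ring
  have hit : ∀ i, (nxt σ)^[i] (up p' s) = sh ((2 * n + 1) * z) ((nxt σ)^[i] (up p s)) := by
    intro i
    rw [hpp, it_sh hp z (Kd.up p s)]
  have hlen : τh - j = ηh - j' := by
    rcases lt_trichotomy (τh - j) (ηh - j') with h | h | h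
    · exfalso
      have h7 := (b3 (τh - j) (by omega) h).2
      change lv _ < 2 * hi at h7
      rw [hit, lv_sh, a2 _ le_rfl, show j + (τh - j) = τh by omega, ha.1, lv_up] at h7
      omega
    · exact h
    · exfalso
      have h7 := (a3 (ηh - j') (by omega) h).2
      change lv _ < 2 * hi at h7
      rw [← lv_sh ((2 * n + 1) * z), ← hit, b2 _ le_rfl, show j' + (ηh - j') = ηh by omega,
        ha'.1, lv_up] at h7
      omega
  have hstart : orb n s σ ηh = sh ((2 * n + 1) * z) (orb n a σ τh) := by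
    have h7 := b2 _ le_rfl
    rw [show j' + (ηh - j') = ηh by omega, hit, ← hlen, a2 _ le_rfl,
      show j + (τh - j) = τh by omega] at h7
    exact h7.symm
  have hY : Yh = Xh + (2 * n + 1) * z := by
    rw [ha.1, ha'.1, sh_up] at hstart
    simp only [up, Prod.mk.injEq] at hstart
    linarith [hstart.1.1]
  have hst := stay hI hn hp h1 h2 hT ha
  have hst' := stay hI hn hp le_rfl h2 hT ha'
  have hall : ∀ i, orb n s σ (ηh + i) = sh ((2 * n + 1) * z) (orb n a σ (τh + i)) := by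
    intro i
    induction i with
    | zero => exact hstart
    | succ i ih =>
      have e1 := hst (τh + i) (by omega)
      have e2 := hst' (ηh + i) (by omega)
      rw [← add_assoc, ← add_assoc, orb_succ, orb_succ, wk_hi n s σ e2, wk_hi n a σ (by omega), ih,
        nxt_sh hp z (kd_orb n a σ _)]
  have hτ : τh ≤ τb := hit_le (by omega) h3 ha hb
  have hHit : Hit n s b σ (ηh + (τb - τh)) (Xb + (2 * n + 1) * z) := by
    constructor
    · rw [hall, show τh + (τb - τh) = τb by omega, hb.1, sh_up]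
      congr 1
      ring
    · intro k hk q hq
      rcases Nat.lt_or_ge k ηh with h | h
      · have h7 := lt_hit h2.le ha' k h
        rw [hq, lv_up] at h7
        omega
      · obtain ⟨i, rfl⟩ := Nat.exists_eq_add_of_le h
        have h7 := lt_hit (by omega) hb (τh + i) (by omega)
        rw [hall] at hq
        rw [← lv_sh ((2 * n + 1) * z), hq, lv_up] at h7
        omega
  have h8 := hit_unique hb' hHit
  rw [h8, hY]
  ring

theorem t_COMP : S_VAL → S_INJ → S_HIT → S_TRAVG → S_COMP := by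
  intro hV hI hH hG n σ a lo s hi b hn hp h1 h2 h3 h4 hTl hTh r hr
  obtain ⟨τs, hs⟩ := hH n a s σ hn hp (by omega)
  obtain ⟨τh, hh⟩ := hH n a hi σ hn hp (by omega)
  obtain ⟨τb, hb⟩ := hH n a b σ hn hp (by omega)
  obtain ⟨ηh, hh'⟩ := hH n s hi σ hn hp (by omega)
  obtain ⟨ηb, hb'⟩ := hH n s b σ hn hp (by omega)
  have hkey : dsp n a b σ - dsp n s b σ = dsp n a hi σ - dsp n s hi σ := by
    rcases hTh with h | h
    · rw [h]
    · exact tail hI hn hp (by omega) (T1_lt h3 h) h4 h hh hb hh' hb'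
  have he : dsp n a b σ - dsp n a s σ - dsp n s b σ
      = (dsp n a hi σ - dsp n a s σ) - dsp n s hi σ := by linarith
  rw [he] at hr
  have h5 : |(dsp n a hi σ - dsp n a s σ) - dsp n s hi σ|
      ≤ |dsp n a hi σ - dsp n a s σ| + |dsp n s hi σ| := abs_sub _ _
  rcases le_or_gt (2 * (2 * (n : ℤ) + 1) * (r + 2)) |dsp n a hi σ - dsp n a s σ| with h6 | h6
  · left
    exact brk hV hI hG hn hp h1 h2 h3 hTl hs hh h6
  · right
    have h7 : 2 * (2 * (n : ℤ) + 1) * (r + 2) ≤ |dsp n s hi σ - 0| := by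
      rw [sub_zero]
      nlinarith
    have h8 : Hit n s s σ 0 0 := by
      refine ⟨?_, fun k hk => absurd hk (Nat.not_lt_zero k)⟩
      rw [orb_zero, add_zero]
    exact brk hV hI hG hn hp le_rfl le_rfl h3 (Or.inl rfl) h8 hh' h7

end Pool.Agent.Y290.KW
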